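import Pool.Agent.Helper11.KS.Sheet
import Pool.Agent.Helper95.NH.EXCH
open MeasureTheory Metric Set Filter Topology Real
open scoped ENNReal NNReal

namespace H11ST
namespace KS

theorem exch : KS_EXCH := by
  intro A S r L hA T F K V hTc hTS hTb hVn hVT hO hFc hFb hKS hKT hFK hVFK
  have hVn' : (V : Set (E 2)).Nonempty := hVn
  have hVT' : (V : Set (E 2)) ⊆ T := fun z hz => hVT z hz
  have hR : IsClosed (S \ (T \ (V : Set (E 2)))) := NH.X95.closed_rest L.hS hO
  have eR : (S ∪ A) \ (T \ (V : Set (E 2))) = (S \ (T \ (V : Set (E 2)))) ∪ A := by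
    ext z
    constructor
    · rintro ⟨h | h, h'⟩
      · exact Or.inl ⟨h, h'⟩
      · exact Or.inr h
    · rintro (h | h)
      · exact ⟨Or.inl h.1, h.2⟩
      · exact ⟨Or.inr h, fun h' => L.far z h (hTb h'.1)⟩
  have hR' : IsClosed ((S ∪ A) \ (T \ (V : Set (E 2)))) := by
    rw [eR]; exact hR.union hA
  have hconn := NH.X95.conn_new (X := S ∪ A) (T := T) (V := (V : Set (E 2))) (F := F) (K := K)
    L.conn.isPreconnected hTc.isClosed hR' (hTS.trans subset_union_left) hVn' hVT' hFc.isClosed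
    (fun z hz => ⟨Or.inl (hKS hz), fun h => h.2 (hKT z hz h.1)⟩) hFK (fun z hz => hVFK z hz)
  set S' : Set (E 2) := (S \ (T \ (V : Set (E 2)))) ∪ F with hS'
  have hS'c : IsClosed S' := hR.union hFc.isClosed
  have eA : S' ∪ A = ((S ∪ A) \ (T \ (V : Set (E 2)))) ∪ F := by
    rw [eR, hS', union_assoc, union_comm F A, ← union_assoc]
  obtain ⟨a, ha⟩ := hVn
  have hconn' : IsConnected (S' ∪ A) := by
    rw [eA]
    exact ⟨⟨a, Or.inl ⟨Or.inl (hTS (hVT a ha)), fun h => h.2 ha⟩⟩, hconn⟩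
  have hout : S' \ ball (0 : E 2) r = S \ ball (0 : E 2) r := by
    ext z
    constructor
    · rintro ⟨h | h, h'⟩
      · exact ⟨h.1, h'⟩
      · exact absurd (hFb h) h'
    · rintro ⟨h, h'⟩
      exact ⟨Or.inl ⟨h, fun hh => h' (hTb hh.1)⟩, h'⟩
  have h1 := L.minim S' hS'c hconn' hout
  have hfin : μH[1] ((S \ (T \ (V : Set (E 2)))) ∩ ball (0 : E 2) r) ≠ ∞ :=
    ne_top_of_le_ne_top L.fin (measure_mono (inter_subset_inter_left _ sdiff_subset))
  have hTV : μH[1] T = μH[1] (T \ (V : Set (E 2))) := by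
    have : NullSingletonClass (μH[1] : Measure (E 2)) :=
      Measure.nullSingletonClass_hausdorff _ one_pos
    have h0 : μH[1] (V : Set (E 2)) = 0 := V.finite_toSet.measure_zero _
    exact (measure_sdiff_null h0).symm
  have h2 : μH[1] ((S \ (T \ (V : Set (E 2)))) ∩ ball (0 : E 2) r) + μH[1] T ≤
      μH[1] (S ∩ ball (0 : E 2) r) := by
    rw [hTV, ← measure_union' (μ := μH[1]) _ (hR.measurableSet.inter measurableSet_ball)]
    · refine measure_mono ?_
      rintro z (h | h)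
      · exact ⟨h.1.1, h.2⟩
      · exact ⟨hTS h.1, hTb h.1⟩
    · rw [disjoint_left]
      rintro z h h'
      exact h.1.2 h'
  have h3 : μH[1] (S' ∩ ball (0 : E 2) r) ≤
      μH[1] ((S \ (T \ (V : Set (E 2)))) ∩ ball (0 : E 2) r) + μH[1] F := by
    refine le_trans (measure_mono ?_) (measure_union_le _ _)
    rintro z ⟨h | h, h'⟩
    · exact Or.inl ⟨h, h'⟩
    · exact Or.inr h
  exact (ENNReal.add_le_add_iff_left hfin).1 (h2.trans (h1.trans h3))

end KS
end H11ST
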